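import Pool.Agent.Lib.MP_eee7a8_ag.TB.Iface4

/-!
# TAGBR, module EGOOD: good triangulations
-/

open Matrix

namespace Pool.Agent.Lib.MP_eee7a8_ag.TB.C91

theorem sameArc_symm {G : Subgroup SLZ} {a b c d : Cusp} (h : SameArc G a b c d) :
    SameArc G c d a b := by
  obtain ⟨g, hg, ⟨h1, h2⟩ | ⟨h1, h2⟩⟩ := h
  · refine ⟨g⁻¹, G.inv_mem hg, Or.inl ⟨?_, ?_⟩⟩
    · rw [← h1, inv_smul_smul]
    · rw [← h2, inv_smul_smul]
  · refine ⟨g⁻¹, G.inv_mem hg, Or.inr ⟨?_, ?_⟩⟩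
    · rw [← h2, inv_smul_smul]
    · rw [← h1, inv_smul_smul]

theorem sameArc_trans {G : Subgroup SLZ} {a b c d e f : Cusp} (h : SameArc G a b c d)
    (h' : SameArc G c d e f) : SameArc G a b e f := by
  obtain ⟨g, hg, ⟨h1, h2⟩ | ⟨h1, h2⟩⟩ := h <;> obtain ⟨k, hk, ⟨h3, h4⟩ | ⟨h3, h4⟩⟩ := h'
  · exact ⟨k * g, G.mul_mem hk hg, Or.inl ⟨by rw [mul_smul, h1, h3], by rw [mul_smul, h2, h4]⟩⟩
  · exact ⟨k * g, G.mul_mem hk hg, Or.inr ⟨by rw [mul_smul, h1, h3], by rw [mul_smul, h2, h4]⟩⟩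
  · exact ⟨k * g, G.mul_mem hk hg, Or.inr ⟨by rw [mul_smul, h1, h4], by rw [mul_smul, h2, h3]⟩⟩
  · exact ⟨k * g, G.mul_mem hk hg, Or.inl ⟨by rw [mul_smul, h1, h4], by rw [mul_smul, h2, h3]⟩⟩

theorem sameArc_rev {G : Subgroup SLZ} (a b : Cusp) : SameArc G a b b a :=
  ⟨1, G.one_mem, Or.inr ⟨one_smul _ _, one_smul _ _⟩⟩

theorem E_symm {G : Subgroup SLZ} {ι : Type} {T : Fam ι} {a b : Cusp} (h : T.E G a b) :
    T.E G b a := by
  obtain ⟨i, h⟩ := h
  exact ⟨i, sameArc_trans h (sameArc_rev a b)⟩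

theorem E_same {G : Subgroup SLZ} {ι : Type} {T : Fam ι} {a b c d : Cusp} (h : T.E G a b)
    (h' : SameArc G a b c d) : T.E G c d := by
  obtain ⟨i, h⟩ := h
  exact ⟨i, sameArc_trans h h'⟩

theorem E_ne {G : Subgroup SLZ} {ι : Type} {T : Fam ι} (hT : T.NonCross G) {a b : Cusp}
    (h : T.E G a b) : a ≠ b := by
  obtain ⟨i, g, _, ⟨h1, h2⟩ | ⟨h1, h2⟩⟩ := h
  · rintro rfl
    exact hT.ne i (smul_left_cancel g (h1.trans h2.symm))
  · rintro rfl
    exact hT.ne i (smul_left_cancel g (h1.trans h2.symm))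

theorem other_ne (a : Cusp) : a ≠ other a := by
  unfold other
  split_ifs with h
  · rw [h]
    intro e
    have := congrArg Cusp.x e
    simp [infty, zero] at this
  · exact h

theorem exists_edge {G : Subgroup SLZ} {ι : Type} {T : Fam ι} (hT : T.IsTri G) (a : Cusp) :
    ∃ b, T.E G a b := by
  rcases hT.star a (other a) (other_ne a) with h | ⟨c, d, h, -⟩
  · exact ⟨_, h⟩
  · exact ⟨_, h⟩

theorem E_simple {G : Subgroup SLZ} {ι : Type} {T : Fam ι} (hT : T.NonCross G) {a b : Cusp}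
    (h : T.E G a b) : Simple G a b :=
  ⟨E_ne hT h, fun g hg hc => hT.nocross _ _ _ _ h
    (E_same h ⟨g, hg, Or.inl ⟨rfl, rfl⟩⟩) hc⟩

/-- the family consisting of one simple arc -/
theorem nonCross_single {G : Subgroup SLZ} {u v : Cusp} (h : Simple G u v) :
    (⟨fun _ => u, fun _ => v⟩ : Fam Unit).NonCross G := by
  refine ⟨fun _ => h.1, ?_⟩
  rintro a b c d ⟨_, h1⟩ ⟨_, h2⟩ hc
  dsimp only at h1 h2
  obtain ⟨g, hg, h1⟩ := h1
  obtain ⟨k, hk, h2⟩ := h2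
  have key : Cross (g • u) (g • v) (k • u) (k • v) := by
    rcases h1 with ⟨rfl, rfl⟩ | ⟨rfl, rfl⟩ <;> rcases h2 with ⟨rfl, rfl⟩ | ⟨rfl, rfl⟩
    · exact hc
    · exact cross_comm_right.1 hc
    · exact cross_comm_left.1 hc
    · exact cross_comm_left.1 (cross_comm_right.1 hc)
  refine h.2 (g⁻¹ * k) (G.mul_mem (G.inv_mem hg) hk) ?_
  rw [← cross_smul g, ← mul_smul, ← mul_smul, mul_inv_cancel_left]
  exact key

theorem egood (hf : FareyStatement) (hco : ConnStatement) (hm : MaxFlipStatement)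
    (hmo : MonoStatement) : EgoodStatement := by
  intro G hG
  obtain ⟨n, T, hT, -⟩ := hf G hG
  constructor
  · by_contra hno
    push Not at hno
    have h1 : ∀ a b, T.E G a b → ∃ g ∈ G, g • a = b := by
      intro a b hab
      by_contra hn
      push Not at hn
      apply hno a b
      intro p hp
      obtain rfl : (a, b) = p := by simpa using hp
      exact ⟨E_simple hT.toNonCross hab, hn⟩
    obtain ⟨a, b, hab⟩ := hG.two
    have hsub : SubE G T (fun x y => T.E G x y ∧ (∃ g ∈ G, g • a = x)) := by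
      refine ⟨fun _ _ h => h.1, ?_⟩
      rintro p q r s hs ⟨h2, g, hg, h3⟩
      refine ⟨E_same h2 hs, ?_⟩
      obtain ⟨k, hk, ⟨h4, h5⟩ | ⟨h4, h5⟩⟩ := hs
      · exact ⟨k * g, G.mul_mem hk hg, by rw [mul_smul, h3, h4]⟩
      · obtain ⟨l, hl, h6⟩ := h1 p q h2
        exact ⟨k * l * g, G.mul_mem (G.mul_mem hk hl) hg, by
          rw [mul_smul, mul_smul, h3, h6, h5]⟩
    obtain ⟨a', ha'⟩ := exists_edge hT a
    obtain ⟨b', hb'⟩ := exists_edge hT b
    have h2 := hco G hG (Fin n) T hT _ hsub ⟨a, a', ha', 1, G.one_mem, one_smul _ _⟩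
      (fun x y z h3 h4 _ => ⟨h4, h3.2⟩) b b' hb'
    obtain ⟨-, g, hg, h3⟩ := h2
    exact hab g hg h3
  · intro u v huv
    obtain ⟨hs, hne⟩ := huv (u, v) rfl
    have hQ := nonCross_single hs
    obtain ⟨T1, hT1, -, hQ1⟩ := hm G hG (Fin n) Unit T _ hT hQ
    obtain ⟨T2, hT2, -, hQ2, hmon⟩ := hmo G hG (Fin n) Unit T1 _ hT1 hQ1
    have hGe : ∀ a b, Ge G (some (u, v)) a b ↔ SameArc G u v a b := by
      intro a b
      constructor
      · rintro ⟨p, hp, h⟩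
        obtain rfl : (u, v) = p := by simpa using hp
        exact h
      · intro h
        exact ⟨(u, v), rfl, h⟩
    have hnor : ∀ g ∈ G, ∀ h ∈ G, g • u ≠ h • v := by
      intro g hg h hh e
      apply hne (h⁻¹ * g) (G.mul_mem (G.inv_mem hh) hg)
      rw [mul_smul, e, inv_smul_smul]
    refine ⟨n, T2, ⟨hT2, ?_, ?_⟩⟩
    · intro a b hab
      exact hQ2 a b ⟨(), (hGe a b).1 hab⟩
    · intro a b c hab hbc hac hT
      rw [hGe] at hab hbc
      have key : ∃ g ∈ G, g • b = b ∧ g • a = c := by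
        obtain ⟨g, hg, h1⟩ := hab
        obtain ⟨k, hk, h2⟩ := hbc
        refine ⟨k * g⁻¹, G.mul_mem hk (G.inv_mem hg), ?_⟩
        rcases h1 with ⟨h1, h1'⟩ | ⟨h1, h1'⟩ <;> rcases h2 with ⟨h2, h2'⟩ | ⟨h2, h2'⟩
        · exact absurd (h2.trans h1'.symm) (hnor k hk g hg)
        · rw [← h1, ← h1', mul_smul, mul_smul, inv_smul_smul, inv_smul_smul]
          exact ⟨h2'.trans h1'.symm, h2⟩
        · rw [← h1, ← h1', mul_smul, mul_smul, inv_smul_smul, inv_smul_smul]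
          exact ⟨h2.trans h1.symm, h2'⟩
        · exact absurd (h1.trans h2'.symm) (hnor g hg k hk)
      obtain ⟨g, hg, h1, h2⟩ := key
      obtain ⟨_, l, hl, h3⟩ := hmon g hg a b h1 (by rw [h2]; exact hT)
      dsimp only at h3
      rcases h3 with ⟨h3, h4⟩ | ⟨h3, h4⟩
      · apply hnor (g * l) (G.mul_mem hg hl) l hl
        rw [mul_smul, h3, h4]
      · apply hnor l hl (g * l) (G.mul_mem hg hl)
        rw [mul_smul, h4, h3]

end Pool.Agent.Lib.MP_eee7a8_ag.TB.C91
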