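import Pool.Agent.Lib.MP_eee7a8_ag.TB.C91.Egood

/-!
# TAGBR, module THM51: Theorem 5.1 from Theorem 4.1, PUSH, KEYDIV and Lemma 5.2
-/

open Matrix

namespace Pool.Agent.Lib.MP_eee7a8_ag.TB.C91

variable {G : Subgroup SLZ} {K : Type} [Field K] [Algebra ℂ K]

/-- extraction of a homogeneous component -/
theorem extract (L : Lam G K)
    (hind : ∀ (s : Finset (Cusp → ℤ)) (x : (Cusp → ℤ) → K), (∀ δ ∈ s, x δ ∈ L.Hom δ) →
      ∑ δ ∈ s, x δ = 0 → ∀ δ ∈ s, x δ = 0)
    {I : Type} (s : I → K) (d : I → Cusp → ℤ) (hs : ∀ i, s i ∈ L.Hom (d i)) {x : K}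
    {η : Cusp → ℤ} (hx : x ∈ Submodule.span ℂ (Set.range s)) (hη : x ∈ L.Hom η) :
    x ∈ Submodule.span ℂ {y | ∃ i, d i = η ∧ y = s i} := by
  classical
  obtain ⟨c, hc⟩ := Finsupp.mem_span_range_iff_exists_finsupp.1 hx
  let D : Finset (Cusp → ℤ) := insert η (c.support.image d)
  let y : (Cusp → ℤ) → K := fun δ =>
    (∑ i ∈ c.support with d i = δ, c i • s i) - (if δ = η then x else 0)
  have h1 : ∀ δ ∈ D, y δ ∈ L.Hom δ := by
    intro δ _
    refine Submodule.sub_mem _ (Submodule.sum_mem _ fun i hi => ?_) ?_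
    · rw [Finset.mem_filter] at hi
      rw [← hi.2]
      exact Submodule.smul_mem _ _ (hs i)
    · split_ifs with h
      · rw [h]; exact hη
      · exact Submodule.zero_mem _
  have h2 : ∑ δ ∈ D, y δ = 0 := by
    simp only [y]
    rw [Finset.sum_sub_distrib, Finset.sum_ite_eq' D η (fun _ => x),
      if_pos (Finset.mem_insert_self _ _), Finset.sum_fiberwise_of_maps_to
        (fun i hi => Finset.mem_insert_of_mem (Finset.mem_image_of_mem d hi))]
    rw [sub_eq_zero]
    exact hc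
  have h3 := hind D y h1 h2 η (Finset.mem_insert_self _ _)
  simp only [y, if_true] at h3
  rw [sub_eq_zero] at h3
  rw [← h3]
  refine Submodule.sum_mem _ fun i hi => ?_
  rw [Finset.mem_filter] at hi
  exact Submodule.smul_mem _ _ (Submodule.subset_span ⟨i, hi.2, rfl⟩)

theorem mem_span_of_adjoin (L : Lam G K) (F : Cusp → Cusp → Prop) (v x : K)
    (hx : x ∈ Algebra.adjoin ℂ ((L.RR F : Set K) ∪ {v})) :
    x ∈ Submodule.span ℂ (Set.range
      (fun i : ℕ × (Submonoid.closure (L.gens F)) => v ^ i.1 * (i.2 : K))) := by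
  let N : Submonoid K :=
    { carrier := Set.range (fun i : ℕ × (Submonoid.closure (L.gens F)) => v ^ i.1 * (i.2 : K))
      mul_mem' := by
        rintro _ _ ⟨⟨i, a⟩, rfl⟩ ⟨⟨j, b⟩, rfl⟩
        refine ⟨⟨i + j, a * b⟩, ?_⟩
        dsimp only
        rw [Submonoid.coe_mul, pow_add]
        ring
      one_mem' := ⟨⟨0, 1⟩, by simp⟩ }
  have h1 : Algebra.adjoin ℂ ((L.RR F : Set K) ∪ {v}) ≤ Algebra.adjoin ℂ (N : Set K) := by
    apply Algebra.adjoin_le
    rintro y (hy | hy)
    · have : L.RR F ≤ Algebra.adjoin ℂ (N : Set K) := by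
        apply Algebra.adjoin_mono
        intro z hz
        exact ⟨⟨0, ⟨z, Submonoid.subset_closure hz⟩⟩, by simp⟩
      exact this hy
    · rw [Set.mem_singleton_iff] at hy
      subst hy
      exact Algebra.subset_adjoin ⟨⟨1, 1⟩, by simp⟩
  have h2 := h1 hx
  have h3 := Algebra.adjoin_eq_span ℂ (N : Set K)
  rw [Submonoid.closure_eq] at h3
  rw [← Subalgebra.mem_toSubmodule, h3] at h2
  exact h2

theorem one_hom (L : Lam G K) : (1 : K) ∈ L.Hom 0 := Submodule.subset_span Lam.HM.one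

theorem closure_hom (L : Lam G K) (F : Cusp → Cusp → Prop)
    (hgm : ∀ δ δ' x y, x ∈ L.Hom δ → y ∈ L.Hom δ' → x * y ∈ L.Hom (δ + δ'))
    (hgl : ∀ a b, L.lam a b ∈ L.Hom (ends G a b))
    (hgt : ∀ h ∈ G, 2 < |h.1.trace| → L.tr h ∈ L.Hom 0) :
    ∀ r ∈ Submonoid.closure (L.gens F), ∃ δ, r ∈ L.Hom δ := by
  intro r hr
  induction hr using Submonoid.closure_induction with
  | mem x hx =>
    rcases hx with ⟨a, b, -, rfl⟩ | ⟨g, hg, h1, -, rfl⟩
    · exact ⟨_, hgl a b⟩
    · exact ⟨_, hgt g hg h1⟩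
  | one => exact ⟨0, one_hom L⟩
  | mul x y _ _ hx hy =>
    obtain ⟨a, ha⟩ := hx
    obtain ⟨b, hb⟩ := hy
    exact ⟨_, hgm _ _ _ _ ha hb⟩

theorem pow_hom (L : Lam G K)
    (hgm : ∀ δ δ' x y, x ∈ L.Hom δ → y ∈ L.Hom δ' → x * y ∈ L.Hom (δ + δ'))
    {x : K} {δ : Cusp → ℤ} (hx : x ∈ L.Hom δ) (n : ℕ) : x ^ n ∈ L.Hom (n • δ) := by
  induction n with
  | zero => rw [pow_zero, zero_smul]; exact one_hom L
  | succ n ih => rw [pow_succ, succ_nsmul]; exact hgm _ _ _ _ ih hx

/-- homogeneous decomposition of an element of `R_F[v]` -/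
theorem decomp (L : Lam G K) (F : Cusp → Cusp → Prop)
    (hind : ∀ (s : Finset (Cusp → ℤ)) (x : (Cusp → ℤ) → K), (∀ δ ∈ s, x δ ∈ L.Hom δ) →
      ∑ δ ∈ s, x δ = 0 → ∀ δ ∈ s, x δ = 0)
    (hgm : ∀ δ δ' x y, x ∈ L.Hom δ → y ∈ L.Hom δ' → x * y ∈ L.Hom (δ + δ'))
    (hgl : ∀ a b, L.lam a b ∈ L.Hom (ends G a b))
    (hgt : ∀ h ∈ G, 2 < |h.1.trace| → L.tr h ∈ L.Hom 0)
    (v : K) (ε : Cusp → ℤ) (hv : v ∈ L.Hom (-ε)) {x : K} {η : Cusp → ℤ}
    (hx : x ∈ Algebra.adjoin ℂ ((L.RR F : Set K) ∪ {v})) (hη : x ∈ L.Hom η) :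
    ∃ (N : ℕ) (h : ℕ → K), (∀ j, h j ∈ L.RR F ∧ h j ∈ L.Hom (η + (j : ℕ) • ε)) ∧
      x = ∑ j ∈ Finset.range N, v ^ j * h j := by
  classical
  have h0 := mem_span_of_adjoin L F v x hx
  choose dd hdd using closure_hom L F hgm hgl hgt
  have h1 := extract L hind
    (fun i : ℕ × (Submonoid.closure (L.gens F)) => v ^ i.1 * (i.2 : K))
    (fun i => i.1 • (-ε) + dd i.2.1 i.2.2)
    (fun i => hgm _ _ _ _ (pow_hom L hgm hv i.1) (hdd i.2.1 i.2.2)) h0 hη
  have h2 : ∃ h : ℕ →₀ K, (∀ j, h j ∈ L.RR F ∧ h j ∈ L.Hom (η + (j : ℕ) • ε)) ∧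
      x = h.sum (fun j r => v ^ j * r) := by
    clear hx hη h0
    induction h1 using Submodule.span_induction with
    | mem y hy =>
      obtain ⟨⟨j, r, hr⟩, h2, rfl⟩ := hy
      refine ⟨Finsupp.single j r, ?_, ?_⟩
      · intro i
        by_cases hij : j = i
        · subst hij
          rw [Finsupp.single_eq_same]
          constructor
          · have : Submonoid.closure (L.gens F) ≤ (L.RR F).toSubmonoid :=
              Submonoid.closure_le.2 Algebra.subset_adjoin
            exact this hr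
          · have h3 := hdd r hr
            have h4 : η + j • ε = dd r hr := by
              rw [← h2]
              dsimp only
              rw [smul_neg]
              abel
            rw [h4]
            exact h3
        · rw [Finsupp.single_eq_of_ne (Ne.symm hij)]
          exact ⟨Subalgebra.zero_mem _, Submodule.zero_mem _⟩
      · rw [Finsupp.sum_single_index]
        rw [mul_zero]
    | zero => exact ⟨0, fun j => ⟨Subalgebra.zero_mem _, Submodule.zero_mem _⟩, by simp⟩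
    | add y z _ _ hy hz =>
      obtain ⟨a, ha, rfl⟩ := hy
      obtain ⟨b, hb, rfl⟩ := hz
      refine ⟨a + b, fun j => ⟨Subalgebra.add_mem _ (ha j).1 (hb j).1,
        Submodule.add_mem _ (ha j).2 (hb j).2⟩, ?_⟩
      rw [Finsupp.sum_add_index' (fun _ => mul_zero _) (fun _ _ _ => mul_add _ _ _)]
    | smul c y _ hy =>
      obtain ⟨a, ha, rfl⟩ := hy
      refine ⟨c • a, fun j => ⟨Subalgebra.smul_mem _ (ha j).1 c,
        Submodule.smul_mem _ c (ha j).2⟩, ?_⟩
      rw [Finsupp.sum_smul_index' (fun _ => mul_zero _), Finsupp.smul_sum]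
      apply Finsupp.sum_congr
      intro j _
      rw [mul_smul_comm]
  obtain ⟨h, hh, hxx⟩ := h2
  refine ⟨h.support.sup id + 1, h, hh, ?_⟩
  rw [hxx]
  apply Finsupp.sum_of_support_subset
  · intro j hj
    rw [Finset.mem_range, Nat.lt_succ_iff]
    exact Finset.le_sup (f := id) hj
  · intro j _
    rw [mul_zero]

/-- elements of `R[1/F]` are in `R` after multiplication by a power of `lam(e)` -/
theorem exists_pow (L : Lam G K) (u v : Cusp) (hl : L.lam u v ≠ 0) {x : K}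
    (hx : x ∈ L.RI (Ge G (some (u, v)))) : ∃ N : ℕ, L.lam u v ^ N * x ∈ L.RA := by
  have hmem : L.lam u v ∈ L.RA :=
    Algebra.subset_adjoin (Or.inl ⟨u, v, fun _ _ h => h.elim, rfl⟩)
  induction hx using Algebra.adjoin_induction with
  | mem x hx =>
    rcases hx with hx | ⟨a, b, ⟨p, hp, g, hg, h⟩, rfl⟩
    · exact ⟨0, by rw [pow_zero, one_mul]; exact hx⟩
    · refine ⟨1, ?_⟩
      obtain rfl : (u, v) = p := by simpa using hp
      have : L.lam a b = L.lam u v := by
        rcases h with ⟨h1, h2⟩ | ⟨h1, h2⟩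
        · rw [← h1, ← h2, L.inv g hg]
        · rw [← h1, ← h2, L.symm, L.inv g hg]
      rw [this, pow_one, mul_inv_cancel₀ hl]
      exact Subalgebra.one_mem _
  | algebraMap c => exact ⟨0, by rw [pow_zero, one_mul]; exact Subalgebra.algebraMap_mem _ c⟩
  | add x y _ _ hx hy =>
    obtain ⟨a, ha⟩ := hx
    obtain ⟨b, hb⟩ := hy
    refine ⟨a + b, ?_⟩
    have : L.lam u v ^ (a + b) * (x + y) =
        L.lam u v ^ b * (L.lam u v ^ a * x) + L.lam u v ^ a * (L.lam u v ^ b * y) := by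
      rw [pow_add]; ring
    rw [this]
    exact Subalgebra.add_mem _ (Subalgebra.mul_mem _ (Subalgebra.pow_mem _ hmem _) ha)
      (Subalgebra.mul_mem _ (Subalgebra.pow_mem _ hmem _) hb)
  | mul x y _ _ hx hy =>
    obtain ⟨a, ha⟩ := hx
    obtain ⟨b, hb⟩ := hy
    refine ⟨a + b, ?_⟩
    have : L.lam u v ^ (a + b) * (x * y) = (L.lam u v ^ a * x) * (L.lam u v ^ b * y) := by
      rw [pow_add]; ring
    rw [this]
    exact Subalgebra.mul_mem _ ha hb

theorem thm51 (h41 : Thm41Statement) (hpush : PushStatement) (habs : AbsStatement)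
    (hkey : KeydivStatement) (h52 : Lem52Statement) (hs03 : S03Statement) (heg : EgoodStatement)
    (hgrad : GradStatement) (hrup : RupStatement) (hflip : FlipStatement)
    (hch : ChartStatement) (hnz : NonzeroStatement) : Thm51Statement := by
  intro G K _ _ L hG f δ hUP hHom hδ
  obtain ⟨⟨u, v, huv⟩, hgood⟩ := heg G hG
  obtain ⟨hgi, hgm, hgl, hgli, hgv, hgvi, hgt, -, -⟩ := hgrad G K L hG
  obtain ⟨hsimp, hne⟩ := huv (u, v) rfl
  have hl : L.lam u v ≠ 0 := hnz G K L hG u v hsimp.1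
  by_cases hz : ∃ (n : ℕ) (T : Fam (Fin n)), Good G (some (u, v)) T ∧ IsZ G u v T 0
  · obtain ⟨n, T, hT, h0⟩ := hz
    exact hs03 G K L hG u v huv n T hT h0 f δ (hUP n T hT.toIsTri) hHom hδ
  have hz' : ∀ (n : ℕ) (T : Fam (Fin n)), Good G (some (u, v)) T →
      ∀ z, IsZ G u v T z → z ≠ 0 := by
    intro n T hT z hzz h
    subst h
    exact hz ⟨n, T, hT, hzz⟩
  obtain ⟨n, T, hT⟩ := hgood u v huv
  have h1 : f ∈ L.RI (Ge G (some (u, v))) := by
    apply h41 G K L hG (Fin n) T hT.toIsTri (Ge G (some (u, v))) ⟨hT.mem, ?_⟩ ⟨u, v, ?_⟩ f δ ?_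
      hHom (fun z _ => hδ z)
    · rintro a b c d hs ⟨p, hp, h⟩
      exact ⟨p, hp, sameArc_trans h hs⟩
    · exact ⟨(u, v), rfl, 1, G.one_mem, Or.inl ⟨one_smul _ _, one_smul _ _⟩⟩
    · intro T' hT'
      have h2 : T'.IsTri G := by
        induction hT' with
        | refl => exact hT.toIsTri
        | tail _ hstep ih => exact hflip G hG (Fin n) _ _ _ ih hstep
      exact hUP n T' h2
  have hlam : L.lam u v ∈ L.RA :=
    Algebra.subset_adjoin (Or.inl ⟨u, v, fun _ _ h => h.elim, rfl⟩)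
  have hRR : L.RR (Ge G (some (u, v))) ≤ L.RA := by
    apply Algebra.adjoin_mono
    rintro z (⟨a, b, -, rfl⟩ | ⟨g, hg, h2, -, rfl⟩)
    · exact Or.inl ⟨a, b, fun _ _ h => h.elim, rfl⟩
    · exact Or.inr ⟨g, hg, h2, fun _ _ h => h.elim, rfl⟩
  have hRA : (L.RA : Set K) ⊆
      Algebra.adjoin ℂ ((L.RR (Ge G (some (u, v))) : Set K) ∪ {L.v u}) :=
    fun x hx => hpush G K L hG u v huv x hx
  have hvA : L.v u ∈ Algebra.adjoin ℂ ((L.RR (Ge G (some (u, v))) : Set K) ∪ {L.v u}) :=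
    Algebra.subset_adjoin (Or.inr rfl)
  -- Laurent in all charts
  have hUPk : ∀ k : ℕ, L.UP (L.lam u v ^ k * f) := by
    intro k m S hS
    obtain ⟨p, hp⟩ := hrup G K L hG _ (Subalgebra.pow_mem _ hlam k) m S hS
    obtain ⟨q, hq⟩ := hUP m S hS
    exact ⟨p * q, by rw [(hch G K L hG (Fin m) S hS).mul, hp, hq]⟩
  have hHk : ∀ k : ℕ, L.lam u v ^ k * f ∈ L.Hom (k • ends G u v + δ) := fun k =>
    hgm _ _ _ _ (pow_hom L hgm (hgl u v) k) hHom
  -- ends
  have hends : ∀ a b z, 0 ≤ ends G a b z := by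
    intro a b z
    unfold ends
    split_ifs <;> norm_num
  have hu1 : 1 ≤ ends G u v u := by
    have h2 : ∃ g ∈ G, g • u = u := ⟨1, G.one_mem, one_smul _ _⟩
    unfold ends
    rw [if_pos h2]
    split_ifs <;> norm_num
  have hv1 : 1 ≤ ends G u v v := by
    have h2 : ∃ g ∈ G, g • v = v := ⟨1, G.one_mem, one_smul _ _⟩
    unfold ends
    rw [if_pos h2]
    split_ifs <;> norm_num
  -- the descent
  have hdesc : ∀ k : ℕ, L.lam u v ^ k * f ∈
      Algebra.adjoin ℂ ((L.RR (Ge G (some (u, v))) : Set K) ∪ {L.v u}) →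
      f ∈ Algebra.adjoin ℂ ((L.RR (Ge G (some (u, v))) : Set K) ∪ {L.v u}) := by
    intro k
    induction k with
    | zero => intro h2; rwa [pow_zero, one_mul] at h2
    | succ k ih =>
      intro h2
      apply ih
      obtain ⟨N, h, hh, hsum⟩ := decomp L (Ge G (some (u, v))) hgi hgm hgl hgt (L.v u)
        (ends G u u) (hgv u) h2 (hHk (k + 1))
      have h3 : L.lam u v * (L.lam u v ^ k * f) = ∑ j ∈ Finset.range N, L.v u ^ j * h j := by
        rw [← hsum, pow_succ]; ring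
      have h4 : ∀ j < N, ∃ r' ∈ L.RA, h j = L.lam u v * r' := by
        intro j hj
        refine h52 G K L hG u v huv hz' (h j) _ (hh j).1 (hh j).2 ?_ ?_ ?_
        · have e1 := hδ u
          have e2 := hends u u u
          rw [Pi.add_apply, Pi.add_apply, Pi.smul_apply, Pi.smul_apply, nsmul_eq_mul,
            nsmul_eq_mul]
          push_cast
          nlinarith [mul_nonneg (Int.natCast_nonneg k) (hends u v u),
            mul_nonneg (Int.natCast_nonneg j) e2]
        · have e1 := hδ v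
          have e2 := hends u u v
          rw [Pi.add_apply, Pi.add_apply, Pi.smul_apply, Pi.smul_apply, nsmul_eq_mul,
            nsmul_eq_mul]
          push_cast
          nlinarith [mul_nonneg (Int.natCast_nonneg k) (hends u v v),
            mul_nonneg (Int.natCast_nonneg j) e2]
        · intro m S hS
          exact hkey G K L hG u v huv m S hS (hz' m S hS) _ (hUPk k) N h (fun j => (hh j).1) h3
            j hj
      choose! r hr1 hr2 using h4
      have h5 : L.lam u v ^ k * f = ∑ j ∈ Finset.range N, L.v u ^ j * r j := by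
        apply mul_left_cancel₀ hl
        rw [h3, Finset.mul_sum]
        refine Finset.sum_congr rfl fun j hj => ?_
        rw [hr2 j (Finset.mem_range.1 hj)]
        ring
      rw [h5]
      refine Subalgebra.sum_mem _ fun j hj => ?_
      exact Subalgebra.mul_mem _ (Subalgebra.pow_mem _ hvA j)
        (hRA (hr1 j (Finset.mem_range.1 hj)))
  obtain ⟨k, hk⟩ := exists_pow L u v hl h1
  have h6 := hdesc k (hRA hk)
  have hRI : ((L.RI (fun _ _ => False) : Subalgebra ℂ K) : Set K) = L.RA := by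
    unfold Lam.RI
    have : (L.RA : Set K) ∪ {z | ∃ a b, False ∧ z = (L.lam a b)⁻¹} = (L.RA : Set K) := by
      ext z
      simp
    rw [this, Algebra.adjoin_eq]
  have h7 := habs G K L hG (fun _ _ => False) (fun _ _ _ _ _ h => h) (fun _ _ h => h.elim) u
    (fun b => ⟨fun h => h, fun h => h⟩) f δ
    (by
      refine Algebra.adjoin_mono ?_ h6
      rw [hRI]
      exact Set.union_subset_union_left _ hRR) hHom (hδ u)
  have h8 : f ∈ ((L.RI (fun _ _ => False) : Subalgebra ℂ K) : Set K) := h7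
  rw [hRI] at h8
  exact h8

end Pool.Agent.Lib.MP_eee7a8_ag.TB.C91
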